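import Pool.Agent.helper26.EC.SpecS
import Pool.Agent.helper27.CHS.All

/-! Row ec:FLM (helper17) -/

set_option autoImplicit false

namespace Pool.Agent.EC

open Finset ArithmeticFunction
open Pool.Agent.CHS (PB WLo WUp WTail)

theorem FLM : FLM_stmt := by
  refine ⟨2 * 10 ^ 7, fun h hh => ?_⟩
  have h1 : (1 : ℝ) ≤ h / (2 * 10 ^ 7) := by
    rw [le_div_iff₀ (by norm_num)]; linarith
  obtain ⟨j, hj1, hj2⟩ := exists_nat_pow_near h1 (by norm_num : (1 : ℝ) < 2)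
  have hp : (0 : ℝ) < 2 ^ j := by positivity
  rw [le_div_iff₀ (by norm_num)] at hj1
  rw [div_lt_iff₀ (by norm_num), pow_succ] at hj2
  have hw0 : (10 : ℝ) ^ 6 ≤ h / (20 * 2 ^ j) := by
    rw [le_div_iff₀ (by positivity)]
    nlinarith
  have ht := (Pool.Agent.CHS.TBL Pool.Agent.CHS.all_PA Pool.Agent.CHS.all_MB Pool.Agent.CHS.all_EB
    Pool.Agent.CHS.all_CK Pool.Agent.CHS.all_ST Pool.Agent.CHS.all_TL Pool.Agent.CHS.all_OC
    Pool.Agent.CHS.all_SG Pool.Agent.CHS.all_CG (h / (20 * 2 ^ j)) hw0 j).2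
  have e1 : 20 * (2 ^ j * (h / (20 * 2 ^ j))) = h := by
    field_simp
  have e2 : 20 * (h / (20 * 2 ^ j)) = h / 2 ^ j := by
    field_simp
  rw [e1, e2] at ht
  refine ⟨h / 2 ^ j, ?_, ?_, ?_⟩
  · rw [le_div_iff₀ hp]; linarith
  · rw [div_le_iff₀ hp]; linarith
  · have h19 := ht 19 (by norm_num)
    have ec : ((19 : ℕ) : ℝ) = 19 := by norm_num
    rw [ec] at h19
    exact h19

end Pool.Agent.EC
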